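import Mathlib
import Pool.Agent.N70.PP.Stm
import Pool.Agent.H391R2.T4.Ari
import Pool.Agent.W200.IJ.SG
import Pool.Agent.W200.IJ.BC

/-! ARIP: arithmetic assembly for subgroups of `Wr P n × Gal(L/K)`, infinite fields of any
characteristic (combination of N70/EP/Ari.lean, Y140/AW/Ari.lean and W200/IJ/SG.lean). -/

set_option autoImplicit false

namespace Pool.Agent.N93.PP

open MvPolynomial
open Pool.Agent.H391R2 Pool.Agent.H391R2.T4 Pool.Agent.Y793 Pool.Agent.W200.IJ

theorem t_ariP : Pool.Agent.N70.PP.St_ariP := by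
  intro K L K₀ N _ _ _ _ _ _ _ _ _ _ _ _ _ _ _ _ _ _ _ ι _ η hη P _ _ n H₀ r hr vv hvv hR hG
  classical
  have hTKLN : IsScalarTower K L N := IsScalarTower.of_algebraMap_eq fun x => by
    rw [IsScalarTower.algebraMap_apply K K₀ N, IsScalarTower.algebraMap_apply K L K₀,
      ← IsScalarTower.algebraMap_apply L K₀ N]
  have halgKK₀ : Algebra.IsAlgebraic K K₀ := inferInstance
  have halgLK₀ : Algebra.IsAlgebraic L K₀ := Algebra.IsAlgebraic.tower_top (K := K) L
  have hnK₀ : Normal K K₀ := by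
    have : IsAlgClosure K K₀ := ⟨inferInstance, halgKK₀⟩
    exact IsAlgClosure.normal K K₀
  have hηK : IsTranscendenceBasis K η := basis_down η hη
  obtain ⟨E, iE1, iE2, iE3, iE4, iE5, ψ, hψ⟩ := exists_field hηK.1
  let _ : Algebra E N := ψ.toRingHom.toAlgebra
  have hTKEN : IsScalarTower K E N := IsScalarTower.of_algebraMap_eq fun x => (ψ.commutes x).symm
  have hηE : ∀ v, η v = algebraMap E N (algebraMap (MvPolynomial ι K) E (MvPolynomial.X v)) := by
    intro v
    change _ = ψ _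
    rw [hψ, aeval_X]
  have halg : Algebra.IsAlgebraic E N := alg_of_range η hηK fun v => ⟨_, (hηE v).symm⟩
  have hcl : IsAlgClosure E N := ⟨inferInstance, halg⟩
  have hnorm : Normal E N := IsAlgClosure.normal E N
  -- automorphisms over E
  have hσK : ∀ (σ : N ≃ₐ[E] N), ∀ v, σ (η v) = η v := by
    intro σ v
    rw [hηE, σ.commutes]
  have hEfix : ∀ (j : N →+* N), (∀ a : K, j (algebraMap K N a) = algebraMap K N a) →
      (∀ v, j (η v) = η v) → ∀ x : E, j (algebraMap E N x) = algebraMap E N x := by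
    intro j h1 h2 x
    let j' : N →ₐ[K] N := { j with commutes' := h1 }
    exact eq_on_adjoin j' (AlgHom.id K N) (Set.range η) (by
      rintro _ ⟨v, rfl⟩
      exact h2 v) _ (field_le η hηE x)
  have hcoef : ∀ f : K₀ ≃ₐ[K] K₀, ∃ σ : N ≃ₐ[E] N, ∀ a : K₀,
      σ (algebraMap K₀ N a) = algebraMap K₀ N (f a) := by
    intro f
    obtain ⟨j, hj1, hj2⟩ := lift_twist η hη (f : K₀ →+* K₀)
    have h1 : ∀ x : E, j (algebraMap E N x) = algebraMap E N x := by
      refine hEfix j (fun a => ?_) hj1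
      rw [IsScalarTower.algebraMap_apply K K₀ N, hj2]
      congr 1
      exact f.commutes a
    let jE : N →ₐ[E] N := { j with commutes' := h1 }
    refine ⟨AlgEquiv.ofBijective jE (Algebra.IsAlgebraic.algHom_bijective jE), fun a => hj2 a⟩
  -- the relation
  let Rel : (N ≃ₐ[E] N) → Wr P n × (L ≃ₐ[K] L) → Prop := fun σ z =>
    (∀ a : L, σ (algebraMap L N a) = algebraMap L N (z.2 a)) ∧
    ∀ i, σ (r i) = r (z.1.right i) ∧
      ∀ g, σ (vv i g) = vv (z.1.right i) (z.1.left (z.1.right i) * g)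
  have hex : ∀ σ, ∃ z : H₀, Rel σ z := by
    intro σ
    obtain ⟨x, hx, hx2⟩ := hR (σ.restrictScalars K) (fun v => hσK σ v)
    exact ⟨⟨x, hx⟩, hx2⟩
  have huniq : ∀ σ z z', Rel σ z → Rel σ z' → z = z' := by
    intro σ z z' hz hz'
    have h0 : z.2 = z'.2 := by
      apply AlgEquiv.ext
      intro a
      apply (algebraMap L N).injective
      rw [← hz.1, hz'.1]
    have h1 : z.1.right = z'.1.right := by
      apply Equiv.ext
      intro i
      apply hr
      rw [← (hz.2 i).1, (hz'.2 i).1]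
    refine Prod.ext ?_ h0
    apply SemidirectProduct.ext _ h1
    funext j
    obtain ⟨i, rfl⟩ := z.1.right.surjective j
    have h2 := (hz.2 i).2 1
    have h3 := (hz'.2 i).2 1
    rw [h2, mul_one, mul_one, ← h1] at h3
    exact hvv _ h3
  have hmul : ∀ σ σ' z z', Rel σ z → Rel σ' z' → Rel (σ' * σ) (z' * z) := by
    intro σ σ' z z' hz hz'
    refine ⟨fun a => ?_, fun i => ⟨?_, fun g => ?_⟩⟩
    · rw [AlgEquiv.mul_apply, hz.1, hz'.1]
      rfl
    · rw [AlgEquiv.mul_apply, (hz.2 i).1, (hz'.2 _).1]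
      rfl
    · rw [AlgEquiv.mul_apply, (hz.2 i).2, (hz'.2 _).2, Prod.fst_mul, wr_mul_right, wr_mul_left]
      change _ = vv (z'.1.right (z.1.right i)) (z'.1.left (z'.1.right (z.1.right i)) *
        z.1.left (z'.1.right⁻¹ (z'.1.right (z.1.right i))) * g)
      have h1 : z'.1.right⁻¹ (z'.1.right (z.1.right i)) = z.1.right i := by simp
      rw [h1, mul_assoc]
  choose Pf hPf using hex
  let π : (N ≃ₐ[E] N) →* H₀ := MonoidHom.mk' Pf (fun σ' σ =>
    Subtype.ext (huniq _ _ _ (hPf _) (hmul σ σ' _ _ (hPf σ) (hPf σ'))))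
  have hπ : ∀ σ, Rel σ (π σ) := hPf
  -- geometric automorphisms
  have hgeo : ∀ y : H₀, (y : Wr P n × (L ≃ₐ[K] L)).2 = 1 →
      ∃ σ : N ≃ₐ[E] N, π σ = y ∧ ∀ a : K₀, σ (algebraMap K₀ N a) = algebraMap K₀ N a := by
    intro y hy
    obtain ⟨σ, hσ1, hσ2⟩ := hG y y.2 hy
    have h1 : ∀ x : E, σ (algebraMap E N x) = algebraMap E N x := by
      refine hEfix (σ : N →+* N) (fun a => ?_) hσ1
      rw [IsScalarTower.algebraMap_apply K K₀ N]
      exact σ.commutes _
    let σ' : N ≃ₐ[E] N := AlgEquiv.ofRingEquiv (f := σ.toRingEquiv) h1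
    refine ⟨σ', Subtype.ext (huniq σ' _ _ (hπ _) ⟨fun a => ?_, hσ2⟩), fun a => σ.commutes a⟩
    rw [hy]
    change σ (algebraMap L N a) = algebraMap L N a
    rw [IsScalarTower.algebraMap_apply L K₀ N]
    exact σ.commutes _
  -- lifts of the automorphisms of L
  have hlift : ∀ ρ : L ≃ₐ[K] L, ∃ σ : N ≃ₐ[E] N,
      (π σ : Wr P n × (L ≃ₐ[K] L)).2 = ρ := by
    intro ρ
    obtain ⟨σ₀, hσ₀⟩ := hcoef (ρ.liftNormal K₀)
    refine ⟨σ₀, ?_⟩
    apply AlgEquiv.ext
    intro a
    apply (algebraMap L N).injective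
    rw [← (hπ σ₀).1, IsScalarTower.algebraMap_apply L K₀ N, hσ₀,
      AlgEquiv.liftNormal_commutes, ← IsScalarTower.algebraMap_apply L K₀ N]
  have hsurj : Function.Surjective π := by
    intro z
    obtain ⟨σ₀, h1⟩ := hlift (z : Wr P n × (L ≃ₐ[K] L)).2
    obtain ⟨σ₁, hσ₁, -⟩ := hgeo (z * (π σ₀)⁻¹) (by
      change (z : Wr P n × (L ≃ₐ[K] L)).2 * ((π σ₀ : Wr P n × (L ≃ₐ[K] L)).2)⁻¹ = 1
      rw [h1, mul_inv_cancel])
    refine ⟨σ₁ * σ₀, ?_⟩
    rw [map_mul, hσ₁, inv_mul_cancel_right]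
  -- a finite Galois extension
  let b := Module.finBasis K L
  let S : Set N := (Set.range fun q => algebraMap L N (b q)) ∪
    (Set.range r ∪ ⋃ i, Set.range (vv i))
  have hSf : S.Finite := (Set.finite_range _).union
    ((Set.finite_range r).union (Set.finite_iUnion fun i => Set.finite_range _))
  have hbM : ∀ γ : N ≃ₐ[E] N, (∀ q, γ (algebraMap L N (b q)) = algebraMap L N (b q)) →
      ∀ a : L, γ (algebraMap L N a) = algebraMap L N a := by
    intro γ hγ a
    rw [← b.sum_repr a, map_sum, map_sum]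
    refine Finset.sum_congr rfl fun q _ => ?_
    rw [Algebra.smul_def, map_mul, map_mul, hγ]
    congr 1
    rw [← IsScalarTower.algebraMap_apply K L N]
    exact (γ.restrictScalars K).commutes _
  have hS : ∀ γ : N ≃ₐ[E] N, (∀ s ∈ S, γ s = s) → π γ = 1 := by
    intro γ hγ
    refine Subtype.ext (huniq γ _ _ (hπ γ) ⟨fun a => ?_,
      fun i => ⟨hγ _ (Or.inr (Or.inl ⟨i, rfl⟩)), fun g => ?_⟩⟩)
    · exact hbM γ (fun q => hγ _ (Or.inl ⟨q, rfl⟩)) a
    · rw [hγ (vv i g) (Or.inr (Or.inr (Set.mem_iUnion.2 ⟨i, ⟨g, rfl⟩⟩)))]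
      change vv i g = vv i (1 * g)
      rw [one_mul]
  obtain ⟨F, iF1, iF2, iF3, iF4, iF5, iF6, e, he1, he2⟩ := finite_descent2 π hsurj S hSf hS
  have hLF : ∀ a : L, algebraMap L N a ∈ (algebraMap F N).range := by
    intro a
    refine he2 _ ?_ (fun γ hγ => ?_)
    · have h4 : IsSeparable K a := Algebra.IsSeparable.isSeparable K a
      have h5 : IsSeparable K (algebraMap L N a) := by
        have h6 := h4.map (IsScalarTower.toAlgHom K L N) (algebraMap L N).injective
        exact h6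
      exact h5.tower_top E
    · have h4 := (hπ γ).1 a
      rw [hγ] at h4
      exact h4
  have hjinj : Function.Injective (algebraMap F N) := (algebraMap F N).injective
  let j₀ : F ≃+* (algebraMap F N).range := RingEquiv.ofBijective (algebraMap F N).rangeRestrict
    ⟨fun a b hab => hjinj (congrArg Subtype.val hab), (algebraMap F N).rangeRestrict_surjective⟩
  let f : L →+* F := (j₀.symm : (algebraMap F N).range →+* F).comp
    ((algebraMap L N).codRestrict (algebraMap F N).range hLF)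
  have hf : ∀ a, algebraMap F N (f a) = algebraMap L N a := by
    intro a
    have h4 : j₀ (f a) = (algebraMap L N).codRestrict (algebraMap F N).range hLF a :=
      j₀.apply_symm_apply _
    exact congrArg Subtype.val h4
  let _ : Algebra L F := f.toAlgebra
  have hf' : ∀ a, algebraMap F N (algebraMap L F a) = algebraMap L N a := hf
  let _ : Algebra K F := ((algebraMap E F).comp (algebraMap K E)).toAlgebra
  have hT1 : IsScalarTower K E F := IsScalarTower.of_algebraMap_eq fun x => rfl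
  have hT2 : IsScalarTower K L F := IsScalarTower.of_algebraMap_eq fun x => by
    apply hjinj
    rw [hf', ← IsScalarTower.algebraMap_apply K L N]
    change algebraMap F N (algebraMap E F (algebraMap K E x)) = _
    rw [← IsScalarTower.algebraMap_apply E F N, ← IsScalarTower.algebraMap_apply K E N]
  have hact : ∀ (σ : F ≃ₐ[E] F) (x : L), σ (algebraMap L F x) =
      algebraMap L F ((((MonoidHom.snd (Wr P n) (L ≃ₐ[K] L)).comp H₀.subtype) (e σ)) x) := by
    intro σ x
    obtain ⟨γ, hγ⟩ := hsurj (e σ)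
    have h4 := he1 γ (algebraMap L F x)
    rw [hγ, MulEquiv.symm_apply_apply, hf', (hπ γ).1, hγ, ← hf'] at h4
    exact (hjinj h4).symm
  have hTLFN : IsScalarTower L F N := IsScalarTower.of_algebraMap_eq fun x => (hf' x).symm
  have hreg : ∀ y : F, IsAlgebraic L y → y ∈ Set.range (algebraMap L F) := by
    intro y hy
    refine reg_of_inv (k := K) (E := E) (const_frac (V := ι)) (fun ρ => ?_) y hy (fun σ hσ => ?_)
    · obtain ⟨σ₀, hσ₀⟩ := hlift ρ
      refine ⟨e.symm (π σ₀), fun a => ?_⟩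
      rw [hact, MulEquiv.apply_symm_apply]
      change algebraMap L F ((π σ₀ : Wr P n × (L ≃ₐ[K] L)).2 a) = _
      rw [hσ₀]
    · have h4 : IsAlgebraic L (algebraMap F N y) := hy.algebraMap
      have h5 : IsAlgebraic K₀ (algebraMap F N y) := h4.tower_top K₀
      obtain ⟨c, hc⟩ := minpoly.mem_range_of_degree_eq_one K₀ (algebraMap F N y)
        (IsAlgClosed.degree_eq_one_of_irreducible K₀ (minpoly.irreducible h5.isIntegral))
      have h6 : (e σ : Wr P n × (L ≃ₐ[K] L)).2 = 1 := by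
        apply AlgEquiv.ext
        intro a
        apply (algebraMap L F).injective
        have h7 := hact σ a
        rw [hσ] at h7
        exact h7.symm
      obtain ⟨γ, hγ, hγK⟩ := hgeo (e σ) h6
      have h8 := he1 γ y
      rw [hγ, MulEquiv.symm_apply_apply, ← hc, hγK, hc] at h8
      exact (hjinj h8).symm
  have hfin : Finite (Wr P n) := finite_wr P n
  have hfin' : Finite H₀ := inferInstance
  exact Pool.Agent.W200.IJ.taskA K L H₀ ((MonoidHom.snd (Wr P n) (L ≃ₐ[K] L)).comp H₀.subtype)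
    ι E F e hact hreg

end Pool.Agent.N93.PP
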